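import Pool.Agent.GameMem200.Safety

/-!
# MP_674d90_lc : a safety condition with finite general and infinite chromatic memory
-/

open Pool.Agent.GameMem200

namespace Pool.Agent.Results.MP_674d90_lc.SafetySeparation

theorem result : ∃ (C : Type) (_ : TopologicalSpace C) (_ : DiscreteTopology C)
    (W : Set (ℕ → C)), Nat.card C = 4 ∧ IsClosed W ∧ GenMemLE W 3 ∧ ∀ k : ℕ, ¬ ChrMemLE W k := by
  obtain ⟨S, hS⟩ := exists_window
  exact ⟨Col, inferInstance, inferInstance, SafeW S, by simp, isClosed_safeW S, genMem_safeW S,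
    chrMem_safeW hS⟩

end Pool.Agent.Results.MP_674d90_lc.SafetySeparation
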